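import Pool.Agent.Zk17.TC.Stm

set_option autoImplicit false
set_option maxHeartbeats 400000

/-! Module U2 of helper17: two independent linear forms. -/

namespace Pool.Agent.Zk43.TC

open Polynomial Pool.Agent.TH456.TM Pool.Agent.N743 Pool.Agent.Zk17.TC

/-- scaling of the variable -/
lemma scale (P : ℤ[X]) (N : ℤ) (hN : N ≠ 0) (d : ℕ) (hP0 : P ≠ 0) (hPd : P.natDegree ≤ d) (B : ℝ) (hB1 : 1 ≤ B)
    (hB : ∀ j, |((P.coeff j : ℤ) : ℝ)| ≤ B) (hNB : |(N : ℝ)| ≤ B) :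
    ∃ P' : ℤ[X], P' ≠ 0 ∧ P'.natDegree ≤ d ∧ (∀ j, |((P'.coeff j : ℤ) : ℝ)| ≤ B ^ (d + 1)) ∧
      ∀ z : ℂ, aeval z P' = aeval ((N : ℂ) * z) P := by
  have hc : ∀ j, (P.comp (C N * X)).coeff j = P.coeff j * N ^ j := fun j => comp_C_mul_X_coeff
  have h0 : (P.comp (C N * X)).coeff P.natDegree ≠ 0 := by
    rw [hc]
    exact mul_ne_zero (leadingCoeff_ne_zero.2 hP0) (pow_ne_zero _ hN)
  refine ⟨P.comp (C N * X), fun h => h0 (by rw [h, coeff_zero]), ?_, fun j => ?_, fun z => ?_⟩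
  · refine natDegree_comp_le.trans ?_
    have h1 : (C N * X : ℤ[X]).natDegree ≤ 1 := (natDegree_C_mul_le N X).trans natDegree_X_le
    calc P.natDegree * (C N * X : ℤ[X]).natDegree ≤ d * 1 := Nat.mul_le_mul hPd h1
      _ = d := mul_one d
  · rw [hc]
    have hB0 : 0 ≤ B := by linarith
    by_cases hj : j ≤ d
    · push_cast
      rw [abs_mul, abs_pow, pow_succ, mul_comm]
      apply mul_le_mul _ (hB j) (abs_nonneg _) (by positivity)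
      calc |(N : ℝ)| ^ j ≤ B ^ j := pow_le_pow_left₀ (abs_nonneg _) hNB _
        _ ≤ B ^ d := pow_le_pow_right₀ hB1 hj
    · have h1 : P.coeff j = 0 := coeff_eq_zero_of_natDegree_lt (by omega)
      rw [h1, zero_mul]
      simp only [Int.cast_zero, abs_zero]
      positivity
  · rw [aeval_comp]
    congr 1
    simp

lemma max_pos' {a b c e : ℤ} (h : a * e - b * c ≠ 0) : 1 ≤ max |a| |b| := by
  by_contra hlt
  have h1 : max |a| |b| ≤ 0 := by omega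
  have ha : a = 0 := abs_eq_zero.1 (le_antisymm ((le_max_left _ _).trans h1) (abs_nonneg _))
  have hb : b = 0 := abs_eq_zero.1 (le_antisymm ((le_max_right _ _).trans h1) (abs_nonneg _))
  apply h
  rw [ha, hb]
  ring

lemma norm_le {a b : ℤ} {t s : ℝ} (h : 1 ≤ max |a| |b|) :
    ‖(((a : ℝ) * t + b * s : ℝ) : ℂ) / ((max |a| |b| : ℤ) : ℂ)‖ ≤ |t| + |s| := by
  have h1 : (1 : ℝ) ≤ ((max |a| |b| : ℤ) : ℝ) := by exact_mod_cast h
  have ha : |(a : ℝ)| ≤ ((max |a| |b| : ℤ) : ℝ) := by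
    rw [← Int.cast_abs]
    exact_mod_cast le_max_left _ _
  have hb : |(b : ℝ)| ≤ ((max |a| |b| : ℤ) : ℝ) := by
    rw [← Int.cast_abs]
    exact_mod_cast le_max_right _ _
  rw [norm_div, Complex.norm_real, Complex.norm_intCast, abs_of_pos (by linarith : (0 : ℝ) < ((max |a| |b| : ℤ) : ℝ)),
    div_le_iff₀ (by linarith), Real.norm_eq_abs]
  calc |(a : ℝ) * t + b * s| ≤ |(a : ℝ) * t| + |(b : ℝ) * s| := abs_add_le _ _
    _ = |(a : ℝ)| * |t| + |(b : ℝ)| * |s| := by rw [abs_mul, abs_mul]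
    _ ≤ ((max |a| |b| : ℤ) : ℝ) * |t| + ((max |a| |b| : ℤ) : ℝ) * |s| :=
        add_le_add (mul_le_mul_of_nonneg_right ha (abs_nonneg _)) (mul_le_mul_of_nonneg_right hb (abs_nonneg _))
    _ = _ := by ring

theorem t_U2 (h : S_U1) : S_U2 := by
  intro s t hs d
  obtain ⟨κ, c₀, hκ, hc₀, h1⟩ := h (s : ℂ) hs d (|t| + |s|)
  obtain ⟨η, hη⟩ : ∃ η : ℝ, η = 1 / (2 * (d + 2) * κ) := ⟨_, rfl⟩
  have hη0 : 0 < η := by rw [hη]; positivity
  have hηe : ((d : ℝ) + 2) * η * κ = 1 / 2 := by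
    rw [hη]
    field_simp
  refine ⟨η, max 1 (((2 : ℝ) ^ κ / c₀) ^ 2 + 1), hη0, ?_⟩
  intro X hX a b c e hdet ha hb hc he hP hQ
  obtain ⟨P, hP0, hPd, hPc, hPv⟩ := hP
  obtain ⟨Q, hQ0, hQd, hQc, hQv⟩ := hQ
  have hX1 : 1 ≤ X := (le_max_left _ _).trans hX
  have hX0 : 0 < X := by linarith
  have hX2 : ((2 : ℝ) ^ κ / c₀) ^ 2 < X := by
    have := (le_max_right _ _).trans hX
    linarith
  have hB1 : 1 ≤ X ^ η := Real.one_le_rpow hX1 hη0.le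
  have hdet' : c * b - e * a ≠ 0 := by
    intro h2
    apply hdet
    linarith
  have hN1 : 1 ≤ max |a| |b| := max_pos' hdet
  have hM1 : 1 ≤ max |c| |e| := max_pos' hdet'
  obtain ⟨N, hN⟩ : ∃ N, N = max |a| |b| := ⟨_, rfl⟩
  obtain ⟨M, hM⟩ : ∃ M, M = max |c| |e| := ⟨_, rfl⟩
  have hNB : |(N : ℝ)| ≤ X ^ η := by
    rw [hN, abs_of_nonneg (by exact_mod_cast (by omega : (0 : ℤ) ≤ max |a| |b|)), Int.cast_max, Int.cast_abs, Int.cast_abs]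
    exact max_le ha hb
  have hMB : |(M : ℝ)| ≤ X ^ η := by
    rw [hM, abs_of_nonneg (by exact_mod_cast (by omega : (0 : ℤ) ≤ max |c| |e|)), Int.cast_max, Int.cast_abs, Int.cast_abs]
    exact max_le hc he
  have hN0 : N ≠ 0 := by omega
  have hM0 : M ≠ 0 := by omega
  obtain ⟨P', hP0', hPd', hPc', hPv'⟩ := scale P N hN0 d hP0 hPd (X ^ η) hB1 hPc hNB
  obtain ⟨Q', hQ0', hQd', hQc', hQv'⟩ := scale Q M hM0 d hQ0 hQd (X ^ η) hB1 hQc hMB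
  have hNC : (N : ℂ) ≠ 0 := by exact_mod_cast hN0
  have hMC : (M : ℂ) ≠ 0 := by exact_mod_cast hM0
  obtain ⟨H, hH⟩ : ∃ H : ℝ, H = 2 * (X ^ η) ^ (d + 2) := ⟨_, rfl⟩
  have hB0 : (0 : ℝ) ≤ X ^ η := by linarith
  have hpow1 : (X ^ η) ^ (d + 1) ≤ H := by
    have h2 : (X ^ η) ^ (d + 1) ≤ (X ^ η) ^ (d + 2) := pow_le_pow_right₀ hB1 (by omega)
    have h3 : (0 : ℝ) ≤ (X ^ η) ^ (d + 2) := by positivity
    rw [hH]
    linarith
  have hpow2 : 2 * (X ^ η) ^ 2 ≤ H := by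
    have h2 : (X ^ η) ^ 2 ≤ (X ^ η) ^ (d + 2) := pow_le_pow_right₀ hB1 (by omega)
    rw [hH]
    linarith
  have hsq : (0 : ℝ) ≤ (X ^ η) ^ 2 := by positivity
  have hprod : ∀ y z : ℤ, |(y : ℝ)| ≤ X ^ η → |(z : ℝ)| ≤ X ^ η → |((y * z : ℤ) : ℝ)| ≤ (X ^ η) ^ 2 := by
    intro y z hy hz
    push_cast
    rw [abs_mul, pow_two]
    exact mul_le_mul hy hz (abs_nonneg _) hB0
  have hH1 : 1 ≤ H := (one_le_pow₀ hB1).trans hpow1
  have key := h1 ((((a : ℝ) * t + b * s : ℝ) : ℂ) / (N : ℂ)) ((((c : ℝ) * t + e * s : ℝ) : ℂ) / (M : ℂ))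
    (by rw [hN]; exact norm_le hN1) (by rw [hM]; exact norm_le hM1) (a * e - b * c) (-c * N) (a * M) hdet
    (by
      push_cast
      field_simp
      ring) P' Q' hP0' hQ0' hPd' hQd' H hH1
    (by
      have e1 := hprod a e ha he
      have e2 := hprod b c hb hc
      push_cast at e1 e2 ⊢
      have e3 := abs_sub ((a : ℝ) * e) (b * c)
      linarith)
    (by
      have e1 := hprod (-c) N (by push_cast; rw [abs_neg]; exact hc) hNB
      linarith)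
    (by
      have e1 := hprod a M ha hMB
      linarith)
    (fun j => (hPc' j).trans hpow1) (fun j => (hQc' j).trans hpow1)
  rw [hPv', hQv', mul_div_cancel₀ _ hNC, mul_div_cancel₀ _ hMC, ← abs_aeval, ← abs_aeval] at key
  have h2 : c₀ * H ^ (-κ) ≤ X⁻¹ := key.trans (max_le hPv hQv)
  -- the contradiction
  have h3 : H ^ κ = 2 ^ κ * X ^ ((1 : ℝ) / 2) := by
    rw [hH, Real.mul_rpow (by norm_num) (by positivity), ← Real.rpow_natCast, ← Real.rpow_mul hX0.le,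
      ← Real.rpow_mul hX0.le]
    congr 2
    push_cast
    rw [← hηe]
    ring
  have hHp : 0 < H ^ κ := by positivity
  rw [Real.rpow_neg (by linarith), ← div_eq_mul_inv, div_le_iff₀ hHp, h3] at h2
  have h4 : X ^ ((1 : ℝ) / 2) * X ^ ((1 : ℝ) / 2) = X := by
    rw [← Real.rpow_add hX0]
    norm_num
  have hr0 : 0 < X ^ ((1 : ℝ) / 2) := by positivity
  have h5 : c₀ * X ^ ((1 : ℝ) / 2) ≤ 2 ^ κ := by
    have h6 : X⁻¹ * (2 ^ κ * X ^ ((1 : ℝ) / 2)) * X ^ ((1 : ℝ) / 2) = 2 ^ κ := by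
      calc X⁻¹ * (2 ^ κ * X ^ ((1 : ℝ) / 2)) * X ^ ((1 : ℝ) / 2) =
          X⁻¹ * (X ^ ((1 : ℝ) / 2) * X ^ ((1 : ℝ) / 2)) * 2 ^ κ := by ring
        _ = 2 ^ κ := by rw [h4, inv_mul_cancel₀ hX0.ne', one_mul]
    calc c₀ * X ^ ((1 : ℝ) / 2) ≤ X⁻¹ * (2 ^ κ * X ^ ((1 : ℝ) / 2)) * X ^ ((1 : ℝ) / 2) :=
          mul_le_mul_of_nonneg_right h2 hr0.le
      _ = 2 ^ κ := h6
  have h7 : X ^ ((1 : ℝ) / 2) ≤ 2 ^ κ / c₀ := by
    rw [le_div_iff₀ hc₀, mul_comm]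
    exact h5
  have h8 : X ≤ (2 ^ κ / c₀) ^ 2 := by
    calc X = X ^ ((1 : ℝ) / 2) * X ^ ((1 : ℝ) / 2) := h4.symm
      _ ≤ (2 ^ κ / c₀) * (2 ^ κ / c₀) := mul_le_mul h7 h7 hr0.le (hr0.le.trans h7)
      _ = _ := by ring
  linarith

end Pool.Agent.Zk43.TC
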